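import Pool.Agent.W680.WH.Stm

/-!
# Project WHH (MP_af71ff_an): part KN2
-/

set_option autoImplicit false

open scoped ComplexConjugate InnerProductSpace
open ContinuousLinearMap Filter

namespace Pool.Agent.W171.WH

open Pool.Agent.W680.WH

theorem kn2 (hOM : S_OM) (hOPA : S_OPA) (hOPC : S_OPC) (hOPR : S_OPR) : S_KN2 := by
  intro P m k W A l hm hP hPos hk hW hl hAZ hA hWA
  obtain ⟨hom1, -, homul, -, -⟩ := hOM
  obtain ⟨⟨-, -, -, -⟩, -, ⟨hZeb, -, -, -, -, -⟩, -⟩ := hOPA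
  obtain ⟨hcoe, hcoZ, -, -, -, hcos, hnorm, hsumm, hext, hin, hinn, hinns, -, -, -, -, -, huniq⟩ := hOPC
  obtain ⟨hReb, -, -, -, -, -, -⟩ := hOPR
  -- the form of N0
  have hkey : ∀ f g : E, ⟪f, (adjoint A * P * A) g⟫_ℂ = ⟪A f, P (A g)⟫_ℂ := by
    intro f g
    change ⟪f, adjoint A (P (A g))⟫_ℂ = _
    rw [adjoint_inner_right]
  have hWi : ∀ f g : E, ⟪(W : E →L[ℂ] E) f, P ((W : E →L[ℂ] E) g)⟫_ℂ = ⟪f, P g⟫_ℂ := by
    intro f g
    have h1 : P g = adjoint (W : E →L[ℂ] E) (P ((W : E →L[ℂ] E) g)) := by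
      conv_lhs => rw [← hW]
      rfl
    rw [h1, adjoint_inner_right]
  have hWA' : ∀ f : E, (W : E →L[ℂ] E) (A f) = l • A (R k⁻¹ f) := by
    intro f
    have h1 := congrArg (fun B : E →L[ℂ] E => B f) hWA
    exact h1
  have hll : conj l * l = 1 := by
    rw [mul_comm, Complex.mul_conj, Complex.normSq_eq_norm_sq, hl]
    simp
  have hinv : ∀ f g : E, ⟪A f, P (A g)⟫_ℂ = ⟪A (R k⁻¹ f), P (A (R k⁻¹ g))⟫_ℂ := by
    intro f g
    rw [← hWi (A f) (A g), hWA', hWA', map_smul, inner_smul_left, inner_smul_right, ← mul_assoc,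
      hll, one_mul]
  have hoff : ∀ n n' : ℤ, n ≠ n' → ⟪eb n, (adjoint A * P * A) (eb n')⟫_ℂ = 0 := by
    intro n n' hne
    rw [hkey]
    have h1 := hinv (eb n) (eb n')
    rw [hReb, hReb, map_smul, map_smul, map_smul, inner_smul_left, inner_smul_right,
      ← mul_assoc] at h1
    have h2 : conj (((k⁻¹ ^ n : Circle) : ℂ)) * ((k⁻¹ ^ n' : Circle) : ℂ)
        = ((k ^ (n - n') : Circle) : ℂ) := by
      rw [← Circle.coe_inv_eq_conj, ← Circle.coe_mul]
      congr 1
      rw [inv_zpow, inv_inv, inv_zpow, zpow_sub]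
    rw [h2] at h1
    have h3 : ((k ^ (n - n') : Circle) : ℂ) ≠ 1 := by
      intro h
      apply hk (n - n') (sub_ne_zero.2 hne)
      apply Circle.ext
      rw [h, Circle.coe_one]
    have h4 : (((k ^ (n - n') : Circle) : ℂ) - 1) * ⟪A (eb n), P (A (eb n'))⟫_ℂ = 0 := by
      rw [sub_mul, one_mul, ← h1, sub_self]
    rcases mul_eq_zero.1 h4 with h5 | h5
    · exact absurd (sub_eq_zero.1 h5) h3
    · exact h5
  -- coordinates of A (eb n)
  have hstep : ∀ (n j : ℤ), co (A (eb (n + 1))) j = co (A (eb n)) (j - 1) := by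
    intro n j
    rw [← hZeb n, ← hcoZ]
    congr 1
    exact congrArg (fun B : E →L[ℂ] E => B (eb n)) hAZ
  have hcoA : ∀ n j : ℤ, co (A (eb n)) j = co (A (eb 0)) (j - n) := by
    intro n
    induction n using Int.induction_on with
    | zero => intro j; simp
    | succ i ih =>
      intro j
      rw [hstep, ih]
      congr 1
      ring
    | pred i ih =>
      intro j
      have h1 := hstep (-(i : ℤ) - 1) (j + 1)
      rw [sub_add_cancel, add_sub_cancel_right] at h1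
      rw [← h1, ih]
      congr 1
      ring
  have hF : A (eb 0) ≠ 0 := by
    intro h
    apply hA
    apply huniq A 0 hAZ (by simp)
    rw [h]; rfl
  obtain ⟨l0, hl0⟩ : ∃ l0 : ℤ, co (A (eb 0)) l0 ≠ 0 := by
    by_contra h
    push Not at h
    apply hF
    apply hext
    intro n
    rw [h n]
    simp [co]
  set F := A (eb 0) with hFdef
  have hAeb : ∀ n : ℤ, om (n + l0) * ‖co F l0‖ ^ 2 ≤ ‖A (eb n)‖ ^ 2 := by
    intro n
    rw [hnorm]
    have h1 := (hsumm (A (eb n))).le_tsum (n + l0)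
      (fun j _ => mul_nonneg (om_pos j).le (by positivity))
    have h2 : co (A (eb n)) (n + l0) = co F l0 := by
      rw [hcoA]; congr 1; ring
    rw [h2] at h1
    exact h1
  have hc : 0 < m * ‖co F l0‖ ^ 2 / om l0 := by
    have h1 : 0 < ‖co F l0‖ := norm_pos_iff.2 hl0
    have h2 := om_pos l0
    positivity
  have hdiag : ∀ n : ℤ, m * ‖co F l0‖ ^ 2 / om l0 * om n
      ≤ (⟪eb n, (adjoint A * P * A) (eb n)⟫_ℂ).re := by
    intro n
    rw [hkey]
    refine le_trans ?_ (hPos (A (eb n)))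
    have h1 := hAeb n
    have h2 : om n ≤ om (n + l0) * om l0 := by
      have h3 := homul (n + l0) (-l0)
      rw [om_neg] at h3
      simpa using h3
    have h4 := om_pos l0
    have h5 : m * ‖co F l0‖ ^ 2 / om l0 * om n ≤ m * (om (n + l0) * ‖co F l0‖ ^ 2) := by
      rw [div_mul_eq_mul_div, div_le_iff₀ h4]
      have h6 : 0 ≤ m * ‖co F l0‖ ^ 2 := by positivity
      calc m * ‖co F l0‖ ^ 2 * om n ≤ m * ‖co F l0‖ ^ 2 * (om (n + l0) * om l0) :=
            mul_le_mul_of_nonneg_left h2 h6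
        _ = m * (om (n + l0) * ‖co F l0‖ ^ 2) * om l0 := by ring
    exact h5.trans (mul_le_mul_of_nonneg_left h1 hm.le)
  refine ⟨hoff, ⟨_, hc, hdiag⟩, ?_⟩
  set c := m * ‖co F l0‖ ^ 2 / om l0 with hcdef
  -- self-adjointness
  have hPs : ∀ f g : E, ⟪P f, g⟫_ℂ = ⟪f, P g⟫_ℂ := by
    intro f g
    conv_lhs => rw [← hP]
    rw [adjoint_inner_left]
  set N0 : E →L[ℂ] E := adjoint A * P * A with hN0
  have hNs : ∀ f g : E, ⟪N0 f, g⟫_ℂ = ⟪f, N0 g⟫_ℂ := by
    intro f g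
    rw [hkey, ← inner_conj_symm, hkey, inner_conj_symm, hPs]
  have hNeb : ∀ n : ℤ, N0 (eb n) = co (N0 (eb n)) n • eb n := by
    intro n
    have h1 : ∀ j : ℤ, j ≠ n → co (N0 (eb n)) j = 0 := by
      intro j hj
      have h2 := hoff j n hj
      rw [hin] at h2
      rcases mul_eq_zero.1 h2 with h3 | h3
      · exact absurd (by exact_mod_cast h3) (om_pos j).ne'
      · exact h3
    apply hext
    intro j
    rw [hcos, hcoe]
    by_cases hj : j = n
    · subst hj
      simp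
    · rw [h1 j hj]
      simp [hj]
  have hcoN : ∀ (f : E) (n : ℤ), co (N0 f) n = conj (co (N0 (eb n)) n) * co f n := by
    intro f n
    have h1 := hin n (N0 f)
    rw [← hNs, hNeb, inner_smul_left, hin] at h1
    have h9 : (om n : ℂ) ≠ 0 := by exact_mod_cast (om_pos n).ne'
    apply mul_left_cancel₀ h9
    rw [← h1]; ring
  have hre : ∀ n : ℤ, c ≤ (co (N0 (eb n)) n).re := by
    intro n
    have h1 := hdiag n
    rw [hin] at h1
    have h2 : ((om n : ℂ) * co (N0 (eb n)) n).re = om n * (co (N0 (eb n)) n).re := by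
      simp
    rw [h2, mul_comm] at h1
    exact le_of_mul_le_mul_left h1 (om_pos n)
  have hlow : ∀ f : E, c * ‖f‖ ^ 2 ≤ (⟪f, N0 f⟫_ℂ).re := by
    intro f
    rw [hinn, Complex.re_tsum (hinns f (N0 f)), hnorm, ← tsum_mul_left]
    refine ((hsumm f).mul_left c).tsum_le_tsum (fun n => ?_) ?_
    · rw [hcoN]
      have h1 : ((om n : ℂ) * (conj (co f n) * (conj (co (N0 (eb n)) n) * co f n))).re
          = om n * ((co (N0 (eb n)) n).re * ‖co f n‖ ^ 2) := by
        have h2 : (om n : ℂ) * (conj (co f n) * (conj (co (N0 (eb n)) n) * co f n))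
            = ((om n * ‖co f n‖ ^ 2 : ℝ) : ℂ) * conj (co (N0 (eb n)) n) := by
          have h3 : co f n * conj (co f n) = ((‖co f n‖ ^ 2 : ℝ) : ℂ) := by
            rw [Complex.mul_conj, Complex.normSq_eq_norm_sq]
          push_cast at h3 ⊢
          rw [← h3]; ring
        rw [h2, Complex.re_ofReal_mul, Complex.conj_re]
        ring
      rw [h1]
      have h4 := hre n
      have h5 : 0 ≤ om n * ‖co f n‖ ^ 2 := mul_nonneg (om_pos n).le (by positivity)
      nlinarith [mul_le_mul_of_nonneg_right h4 h5]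
    · exact (Complex.hasSum_re (hinns f (N0 f)).hasSum).summable
  refine ⟨Real.sqrt (c / (‖P‖ + 1)), Real.sqrt_pos.2 (by positivity), fun f => ?_⟩
  have h1 := hlow f
  rw [hkey] at h1
  have h2 : (⟪A f, P (A f)⟫_ℂ).re ≤ ‖P‖ * ‖A f‖ ^ 2 := by
    calc (⟪A f, P (A f)⟫_ℂ).re ≤ ‖⟪A f, P (A f)⟫_ℂ‖ := Complex.re_le_norm _
      _ ≤ ‖A f‖ * ‖P (A f)‖ := norm_inner_le_norm _ _
      _ ≤ ‖A f‖ * (‖P‖ * ‖A f‖) := by
          gcongr
          exact P.le_opNorm _
      _ = ‖P‖ * ‖A f‖ ^ 2 := by ring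
  have h3 : c * ‖f‖ ^ 2 ≤ (‖P‖ + 1) * ‖A f‖ ^ 2 := by
    have := sq_nonneg ‖A f‖
    nlinarith
  refine le_of_sq_le_sq ?_ (norm_nonneg _)
  rw [mul_pow, Real.sq_sqrt (by positivity), div_mul_eq_mul_div, div_le_iff₀ (by positivity)]
  linarith

end Pool.Agent.W171.WH
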